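import Pool.Agent.U426.TU.Stm

/-!
# Project TU, package PID: the ring `ℤ[√2, φ]`
-/

set_option autoImplicit false

namespace Pool.Agent.U916.TU.PID

open Pool.Agent.U426.TU

/-! ### The covering of the plane by the lattice `ℤ[φ]` -/

lemma core (x y : ℚ) (hx0 : 0 ≤ x) (hx : x ≤ 1 / 2) (hy0 : 0 ≤ y) (hy : y ≤ 1 / 2)
    (h : 9 / 10 < 2 * x ^ 2 + 5 / 2 * y ^ 2) : 2 * (x - 1 / 2) ^ 2 + 5 / 2 * (y - 1) ^ 2 ≤ 9 / 10 := by
  by_contra hcon
  rw [not_le] at hcon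
  obtain ⟨X, hX⟩ : ∃ X, X = 1 / 2 - x := ⟨_, rfl⟩
  obtain ⟨Y, hY⟩ : ∃ Y, Y = y - 2 / 5 := ⟨_, rfl⟩
  have ex : x = 1 / 2 - X := by rw [hX]; ring
  have ey : y = Y + 2 / 5 := by rw [hY]; ring
  rw [ex, ey] at h hcon
  have h1 : 0 < 2 * X ^ 2 + 5 / 2 * Y ^ 2 - 2 * X + 2 * Y := by nlinarith
  have h2 : 0 < 2 * X ^ 2 + 5 / 2 * Y ^ 2 - 3 * Y := by nlinarith
  have hX0 : 0 ≤ X := by rw [hX]; linarith
  have hX1 : X ≤ 1 / 2 := by rw [hX]; linarith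
  have hY1 : Y ≤ 1 / 10 := by rw [hY]; linarith
  have hY0 : -(2 / 5) ≤ Y := by rw [hY]; linarith
  rcases le_or_gt 0 Y with hYp | hYn
  · nlinarith [mul_nonneg hX0 (sub_nonneg.2 hX1), mul_nonneg hYp (sub_nonneg.2 hY1)]
  · nlinarith [mul_nonneg hX0 (sub_nonneg.2 hX1), mul_nonneg (neg_nonneg.2 hYn.le) (by linarith : 0 ≤ Y + 2 / 5)]

lemma core' (x y : ℚ) (hx : |x| ≤ 1 / 2) (hy : |y| ≤ 1 / 2)
    (h : 9 / 10 < 2 * x ^ 2 + 5 / 2 * y ^ 2) : 2 * (|x| - 1 / 2) ^ 2 + 5 / 2 * (|y| - 1) ^ 2 ≤ 9 / 10 :=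
  core |x| |y| (abs_nonneg _) hx (abs_nonneg _) hy (by rw [sq_abs, sq_abs]; exact h)

lemma cover (u v : ℚ) : ∃ m n : ℤ,
    2 * (u - m) ^ 2 + 2 * (u - m) * (v - n) + 3 * (v - n) ^ 2 ≤ 9 / 10 := by
  obtain ⟨n, hn⟩ : ∃ n : ℤ, |v - n| ≤ 1 / 2 := ⟨round v, abs_sub_round v⟩
  obtain ⟨m, hm⟩ : ∃ m : ℤ, |u + (v - n) / 2 - m| ≤ 1 / 2 := ⟨round _, abs_sub_round _⟩
  obtain ⟨y, hy⟩ : ∃ y, y = v - n := ⟨_, rfl⟩
  obtain ⟨x, hx⟩ : ∃ x, x = u + (v - n) / 2 - m := ⟨_, rfl⟩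
  rw [← hy] at hn
  rw [← hx] at hm
  have hu : u = x - y / 2 + m := by rw [hx, hy]; ring
  have hv : v = y + n := by rw [hy]; ring
  rcases le_or_gt (2 * x ^ 2 + 5 / 2 * y ^ 2) (9 / 10) with h | h
  · refine ⟨m, n, ?_⟩
    rw [hu, hv]
    refine le_trans (le_of_eq ?_) h
    ring
  · have h1 := core' x y hm hn h
    rcases le_or_gt 0 x with hx0 | hx0 <;> rcases le_or_gt 0 y with hy0 | hy0
    · rw [abs_of_nonneg hx0, abs_of_nonneg hy0] at h1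
      refine ⟨m, n + 1, ?_⟩
      rw [hu, hv]
      push_cast
      refine le_trans (le_of_eq ?_) h1
      ring
    · rw [abs_of_nonneg hx0, abs_of_neg hy0] at h1
      refine ⟨m + 1, n - 1, ?_⟩
      rw [hu, hv]
      push_cast
      refine le_trans (le_of_eq ?_) h1
      ring
    · rw [abs_of_neg hx0, abs_of_nonneg hy0] at h1
      refine ⟨m - 1, n + 1, ?_⟩
      rw [hu, hv]
      push_cast
      refine le_trans (le_of_eq ?_) h1
      ring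
    · rw [abs_of_neg hx0, abs_of_neg hy0] at h1
      refine ⟨m, n - 1, ?_⟩
      rw [hu, hv]
      push_cast
      refine le_trans (le_of_eq ?_) h1
      ring

/-! ### The two quadratic forms -/

lemma sub_case (p p' q q' : ℝ) (hp : 0 ≤ p) (hA : p ^ 2 + p' ^ 2 ≤ 9 / 10)
    (hB : q ^ 2 + q' ^ 2 ≤ 9 / 10) (hP : 0 < p ^ 2 - 2 * q ^ 2)
    (h : 1 ≤ (p ^ 2 - 2 * q ^ 2) * (2 * q' ^ 2 - p' ^ 2)) :
    |((p - 1) ^ 2 - 2 * q ^ 2) * ((p' - 1) ^ 2 - 2 * q' ^ 2)| < 1 := by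
  have hq0 := sq_nonneg q
  have hq0' := sq_nonneg q'
  have hp0 := sq_nonneg p
  have hp0' := sq_nonneg p'
  have h1 : 5 / 9 ≤ p ^ 2 - 2 * q ^ 2 := by
    have : (p ^ 2 - 2 * q ^ 2) * (2 * q' ^ 2 - p' ^ 2) ≤ (p ^ 2 - 2 * q ^ 2) * (9 / 5) :=
      mul_le_mul_of_nonneg_left (by linarith) hP.le
    linarith
  have h2 : 10 / 9 ≤ 2 * q' ^ 2 - p' ^ 2 := by
    have h3 : 0 ≤ 2 * q' ^ 2 - p' ^ 2 := by
      by_contra hcon
      rw [not_le] at hcon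
      nlinarith
    have : (p ^ 2 - 2 * q ^ 2) * (2 * q' ^ 2 - p' ^ 2) ≤ (9 / 10) * (2 * q' ^ 2 - p' ^ 2) :=
      mul_le_mul_of_nonneg_right (by linarith) h3
    linarith
  have hp1 : 0.74 ≤ p := by
    by_contra hcon
    rw [not_le] at hcon
    nlinarith
  have hp2 : p ≤ 0.95 := by
    by_contra hcon
    rw [not_le] at hcon
    nlinarith
  have hp3 : p' ≤ 0.59 := by
    by_contra hcon
    rw [not_le] at hcon
    nlinarith
  have hp4 : -0.59 ≤ p' := by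
    by_contra hcon
    rw [not_le] at hcon
    nlinarith
  have f1 : |(p - 1) ^ 2 - 2 * q ^ 2| ≤ 0.35 := by
    rw [abs_le]
    constructor
    · have := sq_nonneg (p - 1)
      linarith
    · nlinarith
  have f2 : |(p' - 1) ^ 2 - 2 * q' ^ 2| ≤ 1.8 := by
    rw [abs_le]
    constructor
    · have := sq_nonneg (p' - 1)
      linarith
    · nlinarith
  rw [abs_mul]
  calc |(p - 1) ^ 2 - 2 * q ^ 2| * |(p' - 1) ^ 2 - 2 * q' ^ 2| ≤ 0.35 * 1.8 :=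
        mul_le_mul f1 f2 (abs_nonneg _) (by norm_num)
    _ < 1 := by norm_num

lemma sub_case2 (p p' q q' : ℝ) (hA : p ^ 2 + p' ^ 2 ≤ 9 / 10)
    (hB : q ^ 2 + q' ^ 2 ≤ 9 / 10) (hP : 0 < p ^ 2 - 2 * q ^ 2)
    (h : 1 ≤ (p ^ 2 - 2 * q ^ 2) * (2 * q' ^ 2 - p' ^ 2)) : ∃ σ : ℤ,
    |((p - σ) ^ 2 - 2 * q ^ 2) * ((p' - σ) ^ 2 - 2 * q' ^ 2)| < 1 := by
  rcases le_or_gt 0 p with h0 | h0
  · refine ⟨1, ?_⟩
    push_cast
    exact sub_case p p' q q' h0 hA hB hP h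
  · refine ⟨-1, ?_⟩
    push_cast
    have := sub_case (-p) (-p') q q' (by linarith) (by nlinarith) hB (by nlinarith) (by nlinarith)
    have e1 : (-p - 1) ^ 2 = (p - -1) ^ 2 := by ring
    have e2 : (-p' - 1) ^ 2 = (p' - -1) ^ 2 := by ring
    rw [e1, e2] at this
    exact this

lemma real_case (p p' q q' : ℝ) (hA : p ^ 2 + p' ^ 2 ≤ 9 / 10)
    (hB : q ^ 2 + q' ^ 2 ≤ 9 / 10) : ∃ σ : ℤ,
    |((p - σ) ^ 2 - 2 * q ^ 2) * ((p' - σ) ^ 2 - 2 * q' ^ 2)| < 1 := by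
  rcases lt_or_ge (|(p ^ 2 - 2 * q ^ 2) * (p' ^ 2 - 2 * q' ^ 2)|) 1 with h | h
  · refine ⟨0, ?_⟩
    push_cast
    rw [sub_zero, sub_zero]
    exact h
  have hq0 := sq_nonneg q
  have hq0' := sq_nonneg q'
  have hp0 := sq_nonneg p
  have hp0' := sq_nonneg p'
  rw [le_abs] at h
  rcases h with h | h
  · -- the two factors have the same sign
    exfalso
    rcases le_or_gt 0 (p ^ 2 - 2 * q ^ 2) with hs | hs
    · have h1 : 0 ≤ p' ^ 2 - 2 * q' ^ 2 := by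
        by_contra hcon
        rw [not_le] at hcon
        nlinarith
      have h2 : (p ^ 2 - 2 * q ^ 2) * (p' ^ 2 - 2 * q' ^ 2) ≤ (9 / 10) * (9 / 10) :=
        mul_le_mul (by linarith) (by linarith) h1 (by norm_num)
      linarith
    · have h1 : p' ^ 2 - 2 * q' ^ 2 ≤ 0 := by
        by_contra hcon
        rw [not_le] at hcon
        nlinarith
      have h2 : (2 * q ^ 2 - p ^ 2) * (2 * q' ^ 2 - p' ^ 2) ≤ (2 * q ^ 2) * (2 * q' ^ 2) :=
        mul_le_mul (by linarith) (by linarith) (by linarith) (by linarith)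
      nlinarith [sq_nonneg (q ^ 2 - q' ^ 2)]
  · rcases le_or_gt (p ^ 2 - 2 * q ^ 2) 0 with hs | hs
    · have h1 : 0 < p' ^ 2 - 2 * q' ^ 2 := by
        by_contra hcon
        rw [not_lt] at hcon
        nlinarith
      obtain ⟨σ, hσ⟩ := sub_case2 p' p q' q (by linarith) (by linarith) h1 (by nlinarith)
      refine ⟨σ, ?_⟩
      rw [mul_comm]
      exact hσ
    · exact sub_case2 p p' q q' hA hB hs (by nlinarith)

/-! ### The norm -/

lemma nm_mul (x y : K) : nm (x * y) = nm x * nm y := by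
  rw [← mkK_eta x, ← mkK_eta y, mkK_mul]
  simp only [nm, c0_mk, c1_mk, c2_mk, c3_mk]
  ring

lemma nm_one : nm 1 = 1 := by
  rw [← mkK_one]
  simp only [nm, c0_mk, c1_mk, c2_mk, c3_mk]
  norm_num

lemma nm_ne {x : K} (hx : x ≠ 0) : nm x ≠ 0 := by
  intro h
  have h1 := nm_mul x x⁻¹
  rw [mul_inv_cancel₀ hx, nm_one, h, zero_mul] at h1
  exact one_ne_zero h1

/-- the norm as a product of the two quadratic forms -/
lemma nm_real (x : K) (t : ℝ) (ht : t ^ 2 = t + 1) : ((nm x : ℚ) : ℝ) =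
    (((c0 x : ℝ) + c2 x * t) ^ 2 - 2 * ((c1 x : ℝ) + c3 x * t) ^ 2) *
    (((c0 x : ℝ) + c2 x * (1 - t)) ^ 2 - 2 * ((c1 x : ℝ) + c3 x * (1 - t)) ^ 2) := by
  unfold nm
  push_cast
  obtain ⟨a, ha⟩ : ∃ a : ℝ, a = (c0 x : ℝ) := ⟨_, rfl⟩
  obtain ⟨b, hb⟩ : ∃ b : ℝ, b = (c1 x : ℝ) := ⟨_, rfl⟩
  obtain ⟨c, hc⟩ : ∃ c : ℝ, c = (c2 x : ℝ) := ⟨_, rfl⟩
  obtain ⟨d, hd⟩ : ∃ d : ℝ, d = (c3 x : ℝ) := ⟨_, rfl⟩
  rw [← ha, ← hb, ← hc, ← hd]
  have e1 : (a + c * t) ^ 2 - 2 * (b + d * t) ^ 2 =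
      (a ^ 2 + c ^ 2 - 2 * b ^ 2 - 2 * d ^ 2) + (2 * a * c + c ^ 2 - 4 * b * d - 2 * d ^ 2) * t := by
    linear_combination (c ^ 2 - 2 * d ^ 2) * ht
  have e2 : (a + c * (1 - t)) ^ 2 - 2 * (b + d * (1 - t)) ^ 2 =
      (a ^ 2 + c ^ 2 - 2 * b ^ 2 - 2 * d ^ 2) +
        (2 * a * c + c ^ 2 - 4 * b * d - 2 * d ^ 2) * (1 - t) := by
    linear_combination (c ^ 2 - 2 * d ^ 2) * ht
  rw [e1, e2]
  linear_combination (2 * a * c + c ^ 2 - 4 * b * d - 2 * d ^ 2) ^ 2 * ht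

lemma golden : ∃ t : ℝ, t ^ 2 = t + 1 := ⟨(1 + √5) / 2, by
  have := Real.sq_sqrt (show (0 : ℝ) ≤ 5 by norm_num)
  nlinarith⟩

/-- **the Euclidean property** -/
lemma euclid (x : K) : ∃ r ∈ R, |nm (x - r)| < 1 := by
  obtain ⟨t, ht⟩ := golden
  obtain ⟨m, n, hmn⟩ := cover (c0 x) (c2 x)
  obtain ⟨m', n', hmn'⟩ := cover (c1 x) (c3 x)
  obtain ⟨u, hu⟩ : ∃ u : ℝ, u = (c0 x : ℝ) - m := ⟨_, rfl⟩
  obtain ⟨v, hv⟩ : ∃ v : ℝ, v = (c2 x : ℝ) - n := ⟨_, rfl⟩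
  obtain ⟨w, hw⟩ : ∃ w : ℝ, w = (c1 x : ℝ) - m' := ⟨_, rfl⟩
  obtain ⟨z, hz⟩ : ∃ z : ℝ, z = (c3 x : ℝ) - n' := ⟨_, rfl⟩
  have h1 : (u + v * t) ^ 2 + (u + v * (1 - t)) ^ 2 ≤ 9 / 10 := by
    have e1 : (u + v * t) ^ 2 + (u + v * (1 - t)) ^ 2 = 2 * u ^ 2 + 2 * u * v + 3 * v ^ 2 := by
      linear_combination (2 * v ^ 2) * ht
    rw [e1, hu, hv]
    have h2 : (((2 * (c0 x - m) ^ 2 + 2 * (c0 x - m) * (c2 x - n) + 3 * (c2 x - n) ^ 2 : ℚ)) : ℝ) ≤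
        ((9 / 10 : ℚ) : ℝ) := by exact_mod_cast hmn
    push_cast at h2
    exact h2
  have h2 : (w + z * t) ^ 2 + (w + z * (1 - t)) ^ 2 ≤ 9 / 10 := by
    have e1 : (w + z * t) ^ 2 + (w + z * (1 - t)) ^ 2 = 2 * w ^ 2 + 2 * w * z + 3 * z ^ 2 := by
      linear_combination (2 * z ^ 2) * ht
    rw [e1, hw, hz]
    have h2 : (((2 * (c1 x - m') ^ 2 + 2 * (c1 x - m') * (c3 x - n') + 3 * (c3 x - n') ^ 2 : ℚ)) : ℝ) ≤
        ((9 / 10 : ℚ) : ℝ) := by exact_mod_cast hmn'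
    push_cast at h2
    exact h2
  obtain ⟨σ, hσ⟩ := real_case (u + v * t) (u + v * (1 - t)) (w + z * t) (w + z * (1 - t)) h1 h2
  refine ⟨mkK ((m + σ : ℤ) : ℚ) (m' : ℚ) (n : ℚ) (n' : ℚ), ⟨m + σ, m', n, n', rfl⟩, ?_⟩
  have h3 : ((|nm (x - mkK ((m + σ : ℤ) : ℚ) (m' : ℚ) (n : ℚ) (n' : ℚ))| : ℚ) : ℝ) < 1 := by
    rw [Rat.cast_abs, nm_real _ t ht]
    have e : x - mkK ((m + σ : ℤ) : ℚ) (m' : ℚ) (n : ℚ) (n' : ℚ) =
        mkK (c0 x - ((m + σ : ℤ) : ℚ)) (c1 x - m') (c2 x - n) (c3 x - n') := by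
      conv_lhs => rw [← mkK_eta x]
      rw [mkK_sub]
    rw [e]
    simp only [c0_mk, c1_mk, c2_mk, c3_mk]
    push_cast
    have e0 : (c0 x : ℝ) - (m + σ) + (c2 x - n) * t = u + v * t - σ := by rw [hu, hv]; ring
    have e0' : (c0 x : ℝ) - (m + σ) + (c2 x - n) * (1 - t) = u + v * (1 - t) - σ := by
      rw [hu, hv]; ring
    rw [e0, e0', ← hw, ← hz]
    exact hσ
  exact_mod_cast h3

lemma nm_int (x : R) : ∃ k : ℤ, nm (x : K) = k := by
  obtain ⟨x, a, b, c, d, rfl⟩ := x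
  refine ⟨(a ^ 2 + 2 * b ^ 2 + a * c + 2 * b * d - c ^ 2 - 2 * d ^ 2) ^ 2 -
    2 * (2 * a * b + a * d + b * c - 2 * c * d) ^ 2, ?_⟩
  simp only [nm, c0_mk, c1_mk, c2_mk, c3_mk]
  push_cast
  ring

/-- the ring is a principal ideal domain -/
lemma pid : IsPrincipalIdealRing R := by
  classical
  constructor
  intro I
  by_cases hI : I = ⊥
  · rw [hI]
    exact bot_isPrincipal
  obtain ⟨b₀, hb₀, hb₀0⟩ := Submodule.exists_mem_ne_zero_of_ne_bot hI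
  choose N hN using nm_int
  have hex : ∃ n : ℕ, ∃ b ∈ I, b ≠ 0 ∧ (N b).natAbs = n := ⟨_, b₀, hb₀, hb₀0, rfl⟩
  obtain ⟨b, hb, hb0, hbn⟩ := Nat.find_spec hex
  have hmin : ∀ a ∈ I, a ≠ 0 → (N b).natAbs ≤ (N a).natAbs := by
    intro a ha ha0
    rw [hbn]
    exact Nat.find_min' hex ⟨a, ha, ha0, rfl⟩
  have hbK : (b : K) ≠ 0 := fun h => hb0 (Subtype.ext h)
  refine ⟨b, ?_⟩
  apply le_antisymm
  · intro a ha
    obtain ⟨r, hr, hlt⟩ := euclid ((a : K) / b)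
    obtain ⟨r', hr'⟩ : ∃ r' : R, (r' : K) = r := ⟨⟨r, hr⟩, rfl⟩
    have h1 : a - r' * b ∈ I := I.sub_mem ha (I.mul_mem_left _ hb)
    have h2 : ((a - r' * b : R) : K) = ((a : K) / b - r) * b := by
      push_cast
      rw [hr', sub_mul, div_mul_cancel₀ _ hbK]
    have h3 : a - r' * b = 0 := by
      by_contra hne
      have h4 := hmin _ h1 hne
      have h5 : |nm ((a - r' * b : R) : K)| < |nm (b : K)| := by
        rw [h2, nm_mul, abs_mul]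
        have : 0 < |nm (b : K)| := abs_pos.2 (nm_ne hbK)
        nlinarith
      rw [hN, hN] at h5
      have h6 : |N (a - r' * b)| < |N b| := by exact_mod_cast h5
      rw [Int.abs_eq_natAbs, Int.abs_eq_natAbs] at h6
      have h7 : (N (a - r' * b)).natAbs < (N b).natAbs := by exact_mod_cast h6
      omega
    have h4 : a = r' * b := by linear_combination h3
    rw [h4]
    exact Submodule.smul_mem _ r' (Submodule.mem_span_singleton_self b)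
  · rw [Submodule.span_singleton_le_iff_mem]
    exact hb

/-! ### The number of residues -/

/-- the linear map from the coordinates -/
def toR : (Fin 4 → ℤ) →ₗ[ℤ] R where
  toFun w := ⟨mkK (w 0) (w 1) (w 2) (w 3), w 0, w 1, w 2, w 3, rfl⟩
  map_add' v w := by
    apply Subtype.ext
    simp only [Pi.add_apply, Subring.coe_add, mkK_add]
    push_cast
    rfl
  map_smul' n w := by
    apply Subtype.ext
    simp only [Pi.smul_apply, smul_eq_mul, RingHom.id_apply]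
    rw [zsmul_eq_mul, Subring.coe_mul]
    have : ((n : R) : K) = mkK n 0 0 0 := by
      push_cast
      exact mkK_rat (n : ℚ) ▸ by push_cast; rfl
    rw [this, mkK_mul]
    push_cast
    ring_nf

lemma toR_coe (w : Fin 4 → ℤ) : ((toR w : R) : K) = mkK (w 0) (w 1) (w 2) (w 3) := rfl

lemma toR_inj : Function.Injective toR := by
  intro v w h
  have h1 := congrArg (fun x : R => (x : K)) h
  simp only [toR_coe] at h1
  have g0 := congrArg c0 h1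
  have g1 := congrArg c1 h1
  have g2 := congrArg c2 h1
  have g3 := congrArg c3 h1
  simp only [c0_mk, c1_mk, c2_mk, c3_mk] at g0 g1 g2 g3
  funext i
  fin_cases i
  · exact_mod_cast g0
  · exact_mod_cast g1
  · exact_mod_cast g2
  · exact_mod_cast g3

lemma toR_surj : Function.Surjective toR := by
  rintro ⟨x, a, b, c, d, rfl⟩
  exact ⟨![a, b, c, d], rfl⟩

/-- the linear equivalence -/
noncomputable def eqR : (Fin 4 → ℤ) ≃ₗ[ℤ] R := LinearEquiv.ofBijective toR ⟨toR_inj, toR_surj⟩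

/-- the basis -/
noncomputable def basR : Module.Basis (Fin 4) ℤ R := Module.Basis.ofEquivFun eqR.symm

lemma basR_apply (j : Fin 4) : basR j = toR (Pi.single j 1) := by
  rw [basR, Module.Basis.coe_ofEquivFun]
  rfl

lemma basR_repr (w : Fin 4 → ℤ) (i : Fin 4) : basR.repr (toR w) i = w i := by
  have h : basR.repr (toR w) i = eqR.symm (toR w) i := rfl
  rw [h]
  have : toR w = eqR w := rfl
  rw [this, LinearEquiv.symm_apply_apply]

lemma toR_mul (v w : Fin 4 → ℤ) : toR v * toR w = toR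
    ![v 0 * w 0 + 2 * v 1 * w 1 + v 2 * w 2 + 2 * v 3 * w 3,
      v 0 * w 1 + v 1 * w 0 + v 2 * w 3 + v 3 * w 2,
      v 0 * w 2 + 2 * v 1 * w 3 + v 2 * w 0 + 2 * v 3 * w 1 + v 2 * w 2 + 2 * v 3 * w 3,
      v 0 * w 3 + v 1 * w 2 + v 2 * w 1 + v 3 * w 0 + v 2 * w 3 + v 3 * w 2] := by
  apply Subtype.ext
  rw [Subring.coe_mul, toR_coe, toR_coe, toR_coe, mkK_mul]
  simp only [Matrix.cons_val_zero, Matrix.cons_val_one, Matrix.cons_val]
  push_cast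
  rfl

lemma norm_eq (x : R) : ((Algebra.norm ℤ x : ℤ) : ℚ) = nm (x : K) := by
  obtain ⟨v, rfl⟩ := toR_surj x
  rw [Algebra.norm_eq_matrix_det basR]
  have hM : Algebra.leftMulMatrix basR (toR v) =
      !![v 0, 2 * v 1, v 2, 2 * v 3; v 1, v 0, v 3, v 2;
        v 2, 2 * v 3, v 0 + v 2, 2 * v 1 + 2 * v 3; v 3, v 2, v 1 + v 3, v 0 + v 2] := by
    ext i j
    rw [Algebra.leftMulMatrix_eq_repr_mul, basR_apply, toR_mul, basR_repr]
    fin_cases i <;> fin_cases j <;> simp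
  rw [hM, Matrix.det_succ_row_zero]
  simp only [Fin.sum_univ_succ, Matrix.det_fin_three, Matrix.submatrix_apply, nm, toR_coe, c0_mk, c1_mk, c2_mk, c3_mk]
  simp [Fin.succAbove]
  ring

lemma card (c : R) (_hc : c ≠ 0) :
    ((Nat.card (R ⧸ Ideal.span {c}) : ℕ) : ℚ) = |nm (c : K)| := by
  have := pid
  have : Module.Free ℤ R := Module.Free.of_basis basR
  have : Module.Finite ℤ R := Module.Finite.of_basis basR
  have h1 : Nat.card (R ⧸ Ideal.span {c}) = (Algebra.norm ℤ c).natAbs := by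
    rw [← Ideal.absNorm_span_singleton c, Ideal.absNorm_apply, Submodule.cardQuot_apply]
  rw [h1, Nat.cast_natAbs, Int.cast_abs, norm_eq]

/-! ### The signatures of the units -/

lemma ev_mul {s t : ℝ} (hs : s ^ 2 = 2) (ht : t ^ 2 = t + 1) (x y : K) :
    ev s t (x * y) = ev s t x * ev s t y := by
  rw [← mkK_eta x, ← mkK_eta y, mkK_mul]
  simp only [ev, c0_mk, c1_mk, c2_mk, c3_mk]
  obtain ⟨a, ha⟩ : ∃ a : ℝ, a = (c0 x : ℝ) := ⟨_, rfl⟩
  obtain ⟨b, hb⟩ : ∃ b : ℝ, b = (c1 x : ℝ) := ⟨_, rfl⟩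
  obtain ⟨c, hc⟩ : ∃ c : ℝ, c = (c2 x : ℝ) := ⟨_, rfl⟩
  obtain ⟨d, hd⟩ : ∃ d : ℝ, d = (c3 x : ℝ) := ⟨_, rfl⟩
  obtain ⟨a', ha'⟩ : ∃ a : ℝ, a = (c0 y : ℝ) := ⟨_, rfl⟩
  obtain ⟨b', hb'⟩ : ∃ b : ℝ, b = (c1 y : ℝ) := ⟨_, rfl⟩
  obtain ⟨c', hc'⟩ : ∃ c : ℝ, c = (c2 y : ℝ) := ⟨_, rfl⟩
  obtain ⟨d', hd'⟩ : ∃ d : ℝ, d = (c3 y : ℝ) := ⟨_, rfl⟩
  push_cast
  rw [← ha, ← hb, ← hc, ← hd, ← ha', ← hb', ← hc', ← hd']
  linear_combination (-(b + d * t) * (b' + d' * t)) * hs -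
    ((c + d * s) * (c' + d' * s) - d * d' * (s ^ 2 - 2)) * ht

lemma ev_ne {s t : ℝ} (hs : s ^ 2 = 2) (ht : t ^ 2 = t + 1) {x : K} (hx : x ≠ 0) :
    ev s t x ≠ 0 := by
  intro h
  have h1 := ev_mul hs ht x x⁻¹
  rw [mul_inv_cancel₀ hx, h, zero_mul, ← mkK_one] at h1
  simp [ev] at h1

/-- some unit multiple is totally positive -/
def Good (x : K) : Prop := ∃ u ∈ R, ∃ v ∈ R, u * v = 1 ∧ TP (u * x)

lemma good_of {g h x : K} (hg : g ∈ R) (hh : h ∈ R) (hgh : g * h = 1) (hx : Good (g * x)) :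
    Good x := by
  obtain ⟨u, hu, v, hv, huv, hT⟩ := hx
  refine ⟨u * g, R.mul_mem hu hg, v * h, R.mul_mem hv hh, ?_, ?_⟩
  · calc u * g * (v * h) = (u * v) * (g * h) := by ring
      _ = 1 := by rw [huv, hgh, one_mul]
  · rw [mul_assoc]
    exact hT

lemma mem_R (a b c d : ℤ) : mkK a b c d ∈ R := ⟨a, b, c, d, rfl⟩

lemma unit_neg : (mkK (-1) 0 0 0 : K) * mkK (-1) 0 0 0 = 1 := by
  rw [mkK_mul, ← mkK_one]; norm_num

lemma unit_ph : (mkK 0 0 1 0 : K) * mkK (-1) 0 1 0 = 1 := by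
  rw [mkK_mul, ← mkK_one]; norm_num

lemma unit_r2 : (mkK 1 1 0 0 : K) * mkK (-1) 1 0 0 = 1 := by
  rw [mkK_mul, ← mkK_one]; norm_num

lemma unit_om : (mkK 0 1 1 0 : K) * mkK 1 0 1 (-1) = 1 := by
  rw [mkK_mul, ← mkK_one]; norm_num

section signs

variable {s t : ℝ}

lemma good4 (hs : s ^ 2 = 2) (ht : t ^ 2 = t + 1) (x : K) (h1 : 0 < ev s t x)
    (h2 : 0 < ev s (1 - t) x) (h3 : 0 < ev (-s) t x) (h4 : 0 < ev (-s) (1 - t) x) : Good x := by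
  refine ⟨1, R.one_mem, 1, R.one_mem, one_mul 1, ?_⟩
  rw [one_mul]
  intro s' t' hs' ht'
  have e1 : (s' - s) * (s' + s) = 0 := by linear_combination hs' - hs
  have e2 : (t' - t) * (t' - (1 - t)) = 0 := by linear_combination ht' - ht
  rcases mul_eq_zero.1 e1 with g1 | g1 <;> rcases mul_eq_zero.1 e2 with g2 | g2
  · rw [sub_eq_zero.1 g1, sub_eq_zero.1 g2]; exact h1
  · rw [sub_eq_zero.1 g1, sub_eq_zero.1 g2]; exact h2
  · rw [eq_neg_of_add_eq_zero_left g1, sub_eq_zero.1 g2]; exact h3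
  · rw [eq_neg_of_add_eq_zero_left g1, sub_eq_zero.1 g2]; exact h4

lemma neg_of {s' t' : ℝ} (hs : s' ^ 2 = 2) (ht : t' ^ 2 = t' + 1) {x : K} (hx : x ≠ 0)
    (h : ¬ 0 < ev s' t' x) : ev s' t' x < 0 := lt_of_le_of_ne (not_lt.1 h) (ev_ne hs ht hx)

lemma good3 (hs : s ^ 2 = 2) (ht : t ^ 2 = t + 1) (hs1 : 1.41 < s) (hs2 : s < 1.42) (ht1 : 1.6 < t)
    (ht2 : t < 1.62) (x : K) (hx : x ≠ 0) (h1 : 0 < ev s t x)
    (h2 : 0 < ev s (1 - t) x) (h3 : 0 < ev (-s) t x) : Good x := by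
  have hs' : (-s) ^ 2 = 2 := by linear_combination hs
  have ht' : (1 - t) ^ 2 = (1 - t) + 1 := by linear_combination ht
  by_cases h4 : 0 < ev (-s) (1 - t) x
  · exact good4 hs ht x h1 h2 h3 h4
  · have h4' := neg_of hs' ht' hx h4
    have hev : ∀ s' t' : ℝ, ev s' t' (mkK 0 1 1 0) = s' + t' := by
      intro s' t'
      simp [ev]
    refine good_of (by exact_mod_cast mem_R 0 1 1 0) (by exact_mod_cast mem_R 1 0 1 (-1)) unit_om ?_
    apply good4 hs ht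
    · rw [ev_mul hs ht, hev]
      exact mul_pos (by linarith) h1
    · rw [ev_mul hs ht', hev]
      exact mul_pos (by linarith) h2
    · rw [ev_mul hs' ht, hev]
      exact mul_pos (by linarith) h3
    · rw [ev_mul hs' ht', hev]
      exact mul_pos_of_neg_of_neg (by linarith) h4'

lemma good2 (hs : s ^ 2 = 2) (ht : t ^ 2 = t + 1) (hs1 : 1.41 < s) (hs2 : s < 1.42) (ht1 : 1.6 < t)
    (ht2 : t < 1.62) (x : K) (hx : x ≠ 0) (h1 : 0 < ev s t x)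
    (h2 : 0 < ev s (1 - t) x) : Good x := by
  have hs' : (-s) ^ 2 = 2 := by linear_combination hs
  have ht' : (1 - t) ^ 2 = (1 - t) + 1 := by linear_combination ht
  by_cases h3 : 0 < ev (-s) t x
  · exact good3 hs ht hs1 hs2 ht1 ht2 x hx h1 h2 h3
  · have h3' := neg_of hs' ht hx h3
    have hev : ∀ s' t' : ℝ, ev s' t' (mkK 1 1 0 0) = 1 + s' := by
      intro s' t'
      simp [ev]
    have hne : (mkK 1 1 0 0 : K) * x ≠ 0 := by
      refine mul_ne_zero ?_ hx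
      intro h
      have := unit_r2
      rw [h, zero_mul] at this
      exact zero_ne_one this
    refine good_of (by exact_mod_cast mem_R 1 1 0 0) (by exact_mod_cast mem_R (-1) 1 0 0) unit_r2 ?_
    apply good3 hs ht hs1 hs2 ht1 ht2 _ hne
    · rw [ev_mul hs ht, hev]
      exact mul_pos (by linarith) h1
    · rw [ev_mul hs ht', hev]
      exact mul_pos (by linarith) h2
    · rw [ev_mul hs' ht, hev]
      exact mul_pos_of_neg_of_neg (by linarith) h3'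

lemma good1 (hs : s ^ 2 = 2) (ht : t ^ 2 = t + 1) (hs1 : 1.41 < s) (hs2 : s < 1.42) (ht1 : 1.6 < t)
    (ht2 : t < 1.62) (x : K) (hx : x ≠ 0) (h1 : 0 < ev s t x) : Good x := by
  have ht' : (1 - t) ^ 2 = (1 - t) + 1 := by linear_combination ht
  by_cases h2 : 0 < ev s (1 - t) x
  · exact good2 hs ht hs1 hs2 ht1 ht2 x hx h1 h2
  · have h2' := neg_of hs ht' hx h2
    have hev : ∀ s' t' : ℝ, ev s' t' (mkK 0 0 1 0) = t' := by
      intro s' t'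
      simp [ev]
    have hne : (mkK 0 0 1 0 : K) * x ≠ 0 := by
      refine mul_ne_zero ?_ hx
      intro h
      have := unit_ph
      rw [h, zero_mul] at this
      exact zero_ne_one this
    refine good_of (by exact_mod_cast mem_R 0 0 1 0) (by exact_mod_cast mem_R (-1) 0 1 0) unit_ph ?_
    apply good2 hs ht hs1 hs2 ht1 ht2 _ hne
    · rw [ev_mul hs ht, hev]
      exact mul_pos (by linarith) h1
    · rw [ev_mul hs ht', hev]
      exact mul_pos_of_neg_of_neg (by linarith) h2'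

lemma good0 (hs : s ^ 2 = 2) (ht : t ^ 2 = t + 1) (hs1 : 1.41 < s) (hs2 : s < 1.42) (ht1 : 1.6 < t)
    (ht2 : t < 1.62) (x : K) (hx : x ≠ 0) : Good x := by
  by_cases h1 : 0 < ev s t x
  · exact good1 hs ht hs1 hs2 ht1 ht2 x hx h1
  · have h1' := neg_of hs ht hx h1
    have hev : ∀ s' t' : ℝ, ev s' t' (mkK (-1) 0 0 0) = -1 := by
      intro s' t'
      simp [ev]
    have hne : (mkK (-1) 0 0 0 : K) * x ≠ 0 := by
      refine mul_ne_zero ?_ hx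
      intro h
      have := unit_neg
      rw [h, zero_mul] at this
      exact zero_ne_one this
    refine good_of (by exact_mod_cast mem_R (-1) 0 0 0) (by exact_mod_cast mem_R (-1) 0 0 0) unit_neg ?_
    apply good1 hs ht hs1 hs2 ht1 ht2 _ hne
    rw [ev_mul hs ht, hev]
    linarith

end signs

lemma good (x : K) (hx : x ≠ 0) : Good x := by
  have h5 := Real.sq_sqrt (show (0 : ℝ) ≤ 5 by norm_num)
  have h50 := Real.sqrt_nonneg (5 : ℝ)
  have h2 := Real.sq_sqrt (show (0 : ℝ) ≤ 2 by norm_num)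
  have h20 := Real.sqrt_nonneg (2 : ℝ)
  have b1 : 2.23 < √(5 : ℝ) := by
    by_contra h
    rw [not_lt] at h
    nlinarith
  have b2 : √(5 : ℝ) < 2.24 := by
    by_contra h
    rw [not_lt] at h
    nlinarith
  have b3 : 1.41 < √(2 : ℝ) := by
    by_contra h
    rw [not_lt] at h
    nlinarith
  have b4 : √(2 : ℝ) < 1.42 := by
    by_contra h
    rw [not_lt] at h
    nlinarith
  exact good0 (s := √2) (t := (1 + √5) / 2) h2 (by linear_combination (1 / 4) * h5) b3 b4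
    (by linarith) (by linarith) x hx

/-- **the package PID** -/
theorem t_PID : S_PID := ⟨pid, card, fun x _ hx => good x hx⟩

end Pool.Agent.U916.TU.PID
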